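import Pool.Agent.W878.VC.Kel

set_option autoImplicit false

/-! Tournaments: the linear order of a local order, and prime tournaments that omit a tournament
with four points. -/

namespace Pool.Agent.K1H62.LT

open Pool.Agent.W878.VC (Mdl Prm SPO SLO)

variable {A : ℕ → ℕ → Prop}

/-- tournaments -/
structure Tour (A : ℕ → ℕ → Prop) : Prop where
  asymm : ∀ u v, A u v → ¬ A v u
  total : ∀ u v, u ≠ v → A u v ∨ A v u

/-- no point is dominated by a cyclic triangle -/
def WF (A : ℕ → ℕ → Prop) : Prop :=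
  ∀ a b c d, A a b → A b c → A c a → A a d → A b d → A c d → False

/-- no point dominates a cyclic triangle -/
def LF (A : ℕ → ℕ → Prop) : Prop :=
  ∀ a b c d, A a b → A b c → A c a → A d a → A d b → A d c → False

/-- the order -/
def lo (A : ℕ → ℕ → Prop) (v u w : ℕ) : Prop :=
  (A u w ∧ (A u v ↔ A w v)) ∨ (A w u ∧ ¬ (A u v ↔ A w v))

theorem Tour.irr (h : Tour A) (u : ℕ) : ¬ A u u := fun h1 => h.asymm u u h1 h1

/-- the trichotomy with a fixed point -/
theorem Tour.tri (h : Tour A) (u v : ℕ) (h1 : ¬ A u v) : u = v ∨ A v u := by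
  by_cases h2 : u = v
  · exact Or.inl h2
  · rcases h.total u v h2 with h3 | h3
    · exact absurd h3 h1
    · exact Or.inr h3

theorem lo_slo (h : Tour A) (hW : WF A) (hL : LF A) (v : ℕ) : SLO (lo A v) := by
  refine ⟨⟨fun u => ?_, fun u w z => ?_⟩, fun u w huw => ?_⟩
  · rintro (⟨h1, -⟩ | ⟨h1, -⟩)
    · exact h.irr u h1
    · exact h.irr u h1
  · rintro (⟨h1, c1⟩ | ⟨h1, c1⟩) (⟨h2, c2⟩ | ⟨h2, c2⟩)
    · -- same class
      by_cases h3 : A u z
      · exact Or.inl ⟨h3, c1.trans c2⟩
      · exfalso
        rcases h.tri u z h3 with h4 | h4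
        · subst h4
          exact h.asymm _ _ h1 h2
        · by_cases h5 : A u v
          · exact hW u w z v h1 h2 h4 h5 (c1.1 h5) (c2.1 (c1.1 h5))
          · have h6 : ¬ A w v := fun h7 => h5 (c1.2 h7)
            have h7 : ¬ A z v := fun h8 => h6 (c2.2 h8)
            rcases h.tri u v h5 with rfl | h8
            · exact h7 h4
            rcases h.tri w v h6 with rfl | h9
            · exact h5 h1
            rcases h.tri z v h7 with rfl | h10
            · exact h6 h2
            exact hL u w z v h1 h2 h4 h8 h9 h10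
    · -- u, w same, z other
      right
      have c3 : ¬ (A u v ↔ A z v) := fun c => c2 (c1.symm.trans c)
      refine ⟨?_, c3⟩
      by_contra h3
      have h4 : A u z := by
        rcases h.tri z u h3 with h4 | h4
        · subst h4
          exact absurd Iff.rfl c3
        · exact h4
      by_cases h5 : A u v
      · have h6 := c1.1 h5
        have h7 : ¬ A z v := fun h8 => c2 ⟨fun _ => h8, fun _ => h6⟩
        rcases h.tri z v h7 with rfl | h8
        · exact h.asymm _ _ h2 h6
        exact hL z w v u h2 h6 h8 h4 h1 h5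
      · have h6 : ¬ A w v := fun h7 => h5 (c1.2 h7)
        have h7 : A z v := by
          by_contra h8
          exact c2 ⟨fun h9 => absurd h9 h6, fun h9 => absurd h9 h8⟩
        rcases h.tri u v h5 with rfl | h8
        · exact h.asymm _ _ h7 h4
        rcases h.tri w v h6 with rfl | h9
        · exact h5 h1
        exact hW v u z w h8 h4 h7 h9 h1 h2
    · -- w, z same, u other
      right
      have c3 : ¬ (A u v ↔ A z v) := fun c => c1 (c.trans c2.symm)
      refine ⟨?_, c3⟩
      by_contra h3
      have h4 : A u z := by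
        rcases h.tri z u h3 with h4 | h4
        · subst h4
          exact absurd Iff.rfl c3
        · exact h4
      by_cases h5 : A w v
      · have h6 := c2.1 h5
        have h7 : ¬ A u v := fun h8 => c1 ⟨fun _ => h5, fun _ => h8⟩
        rcases h.tri u v h7 with rfl | h8
        · exact h.asymm _ _ h4 h6
        exact hL u z v w h4 h6 h8 h1 h2 h5
      · have h6 : ¬ A z v := fun h7 => h5 (c2.2 h7)
        have h7 : A u v := by
          by_contra h8
          exact c1 ⟨fun h9 => absurd h9 h8, fun h9 => absurd h9 h5⟩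
        rcases h.tri w v h5 with rfl | h8
        · exact h.asymm _ _ h7 h1
        rcases h.tri z v h6 with rfl | h9
        · exact h5 h2
        exact hW v w u z h8 h1 h7 h9 h2 h4
    · -- u, z same, w other
      left
      have c3 : A u v ↔ A z v := by
        by_cases k1 : A u v
        · by_cases k2 : A z v
          · exact ⟨fun _ => k2, fun _ => k1⟩
          · exfalso
            by_cases k3 : A w v
            · exact c1 ⟨fun _ => k3, fun _ => k1⟩
            · exact c2 ⟨fun k => absurd k k3, fun k => absurd k k2⟩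
        · by_cases k2 : A z v
          · exfalso
            by_cases k3 : A w v
            · exact c2 ⟨fun _ => k2, fun _ => k3⟩
            · exact c1 ⟨fun k => absurd k k1, fun k => absurd k k3⟩
          · exact ⟨fun k => absurd k k1, fun k => absurd k k2⟩
      refine ⟨?_, c3⟩
      by_contra h3
      rcases h.tri u z h3 with h4 | h4
      · subst h4
        exact h.asymm _ _ h1 h2
      by_cases h5 : A u v
      · have h6 := c3.1 h5
        have h7 : ¬ A w v := fun h8 => c1 ⟨fun _ => h8, fun _ => h5⟩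
        rcases h.tri w v h7 with rfl | h8
        · exact h.asymm _ _ h1 h5
        exact hL v w u z h8 h1 h5 h6 h2 h4
      · have h6 : ¬ A z v := fun h7 => h5 (c3.2 h7)
        have h7 : A w v := by
          by_contra h8
          exact c1 ⟨fun h9 => absurd h9 h5, fun h9 => absurd h9 h8⟩
        rcases h.tri u v h5 with rfl | h8
        · exact h6 h4
        rcases h.tri z v h6 with rfl | h9
        · exact h.asymm _ _ h7 h2
        exact hW z w v u h2 h7 h9 h4 h1 h8
  · by_cases c : (A u v ↔ A w v)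
    · rcases h.total u w huw with h1 | h1
      · exact Or.inl (Or.inl ⟨h1, c⟩)
      · exact Or.inr (Or.inl ⟨h1, c.symm⟩)
    · rcases h.total u w huw with h1 | h1
      · exact Or.inr (Or.inr ⟨h1, fun c' => c c'.symm⟩)
      · exact Or.inl (Or.inr ⟨h1, c⟩)

theorem lo_iff (h : Tour A) (v u w : ℕ) : A u w ↔
    (lo A v u w ∧ (A u v ↔ A w v)) ∨ (lo A v w u ∧ ¬ (A u v ↔ A w v)) := by
  constructor
  · intro h1
    by_cases c : (A u v ↔ A w v)
    · exact Or.inl ⟨Or.inl ⟨h1, c⟩, c⟩
    · exact Or.inr ⟨Or.inr ⟨h1, fun c' => c c'.symm⟩, c⟩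
  · rintro (⟨h1 | h1, c⟩ | ⟨h1 | h1, c⟩)
    · exact h1.1
    · exact absurd c h1.2
    · exact absurd h1.2.symm c
    · exact h1.1

theorem lf_of_wf (h : Tour A) (hP : Prm A) (hW : WF A) : LF A := by
  intro a b c d h1 h2 h3 d1 d2 d3
  -- one step around the triangle
  have st : ∀ w e x y, A w e → A e x → A e y → A y x → A w x → A w y := by
    intro w e x y k1 k2 k3 k4 k5
    by_contra k6
    rcases h.tri w y k6 with rfl | k7
    · exact h.asymm _ _ k1 k3
    · exact hW w e y x k1 k3 k7 k5 k2 k4
  have cl : ∀ w e, A w e → (A e a ∧ A e b ∧ A e c) → A w a ∧ A w b ∧ A w c := by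
    rintro w e k1 ⟨k2, k3, k4⟩
    have ne : ∀ x, A e x → w ≠ x := by
      rintro x k5 rfl
      exact h.asymm _ _ k1 k5
    by_cases ka : A w a
    · have kc := st w e a c k1 k2 k4 h3 ka
      exact ⟨ka, st w e c b k1 k4 k3 h2 kc, kc⟩
    by_cases kb : A w b
    · exact absurd (st w e b a k1 k3 k2 h1 kb) ka
    by_cases kc : A w c
    · exact absurd (st w e c b k1 k4 k3 h2 kc) kb
    exfalso
    rcases h.tri w a ka with k5 | k5
    · exact ne a k2 k5
    rcases h.tri w b kb with k6 | k6
    · exact ne b k3 k6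
    rcases h.tri w c kc with k7 | k7
    · exact ne c k4 k7
    exact hW a b c w h1 h2 h3 k5 k6 k7
  have key : Mdl A {x | ¬ (A x a ∧ A x b ∧ A x c)} := by
    intro u hu v hv w hw
    have hw' : A w a ∧ A w b ∧ A w c := by
      by_contra k
      exact hw k
    have dom : ∀ x, ¬ (A x a ∧ A x b ∧ A x c) → A w x ∧ ¬ A x w := by
      intro x hx
      have k1 : ¬ A x w := fun k => hx (cl x w k hw')
      refine ⟨?_, k1⟩
      rcases h.tri x w k1 with rfl | k2
      · exact absurd hw' hx
      · exact k2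
    obtain ⟨p1, p2⟩ := dom u hu
    obtain ⟨q1, q2⟩ := dom v hv
    exact ⟨⟨fun k => absurd k p2, fun k => absurd k q2⟩, ⟨fun _ => q1, fun _ => p1⟩⟩
  have ma : a ∈ {x | ¬ (A x a ∧ A x b ∧ A x c)} := fun k => h.irr a k.1
  have mb : b ∈ {x | ¬ (A x a ∧ A x b ∧ A x c)} := fun k => h.irr b k.2.1
  rcases hP _ key with k | k
  · have := k ma mb
    subst this
    exact h.irr _ h1
  · have : d ∈ {x | ¬ (A x a ∧ A x b ∧ A x c)} := by
      rw [k]
      trivial
    exact this ⟨d1, d2, d3⟩

theorem Tour.rev (h : Tour A) : Tour (fun u v => A v u) :=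
  ⟨fun u v => h.asymm v u, fun u v k => h.total v u (Ne.symm k)⟩

theorem prm_rev (hP : Prm A) : Prm (fun u v => A v u) := by
  intro X hX
  exact hP X fun u hu v hv w hw => ⟨(hX u hu v hv w hw).2, (hX u hu v hv w hw).1⟩

theorem wf_of_lf (h : Tour A) (hP : Prm A) (hL : LF A) : WF A := by
  have h1 : WF (fun u v => A v u) := fun a b c d k1 k2 k3 k4 k5 k6 =>
    hL a c b d k3 k2 k1 k4 k6 k5
  have h2 := lf_of_wf h.rev (prm_rev hP) h1
  exact fun a b c d k1 k2 k3 k4 k5 k6 => h2 a c b d k3 k2 k1 k4 k6 k5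

/-- no 3-cycles in a prime tournament without mixed points -/
theorem mixed (h : Tour A) (hP : Prm A) {a b c : ℕ} (h1 : A a b) (h2 : A b c) (h3 : A c a) :
    ∃ a b c u, A a b ∧ A b c ∧ A c a ∧ A u a ∧ A b u ∧ A c u := by
  by_contra hno
  have key : Mdl A {a, b, c} := by
    have dom : ∀ w, w ∉ ({a, b, c} : Set ℕ) → (A w a ∧ A w b ∧ A w c) ∨
        (A a w ∧ A b w ∧ A c w) := by
      intro w hw
      simp only [Set.mem_insert_iff, Set.mem_singleton_iff, not_or] at hw
      obtain ⟨w1, w2, w3⟩ := hw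
      rcases h.total w a w1 with ka | ka
      · rcases h.total w b w2 with kb | kb
        · rcases h.total w c w3 with kc | kc
          · exact Or.inl ⟨ka, kb, kc⟩
          · exact absurd ⟨b, c, w, a, h2, kc, kb, h1, h3, ka⟩ hno
        · rcases h.total w c w3 with kc | kc
          · exact absurd ⟨a, b, w, c, h1, kb, ka, h3, h2, kc⟩ hno
          · exact absurd ⟨a, b, c, w, h1, h2, h3, ka, kb, kc⟩ hno
      · rcases h.total w b w2 with kb | kb
        · rcases h.total w c w3 with kc | kc
          · exact absurd ⟨c, a, w, b, h3, ka, kc, h2, h1, kb⟩ hno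
          · exact absurd ⟨b, c, a, w, h2, h3, h1, kb, kc, ka⟩ hno
        · rcases h.total w c w3 with kc | kc
          · exact absurd ⟨c, a, b, w, h3, h1, h2, kc, ka, kb⟩ hno
          · exact Or.inr ⟨ka, kb, kc⟩
    intro u hu v hv w hw
    simp only [Set.mem_insert_iff, Set.mem_singleton_iff] at hu hv
    rcases dom w hw with ⟨k1, k2, k3⟩ | ⟨k1, k2, k3⟩
    · have d1 : ∀ x, (x = a ∨ x = b ∨ x = c) → A w x ∧ ¬ A x w := by
        rintro x (rfl | rfl | rfl)
        · exact ⟨k1, h.asymm _ _ k1⟩
        · exact ⟨k2, h.asymm _ _ k2⟩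
        · exact ⟨k3, h.asymm _ _ k3⟩
      exact ⟨⟨fun k => absurd k (d1 u hu).2, fun k => absurd k (d1 v hv).2⟩,
        ⟨fun _ => (d1 v hv).1, fun _ => (d1 u hu).1⟩⟩
    · have d1 : ∀ x, (x = a ∨ x = b ∨ x = c) → A x w ∧ ¬ A w x := by
        rintro x (rfl | rfl | rfl)
        · exact ⟨k1, h.asymm _ _ k1⟩
        · exact ⟨k2, h.asymm _ _ k2⟩
        · exact ⟨k3, h.asymm _ _ k3⟩
      exact ⟨⟨fun _ => (d1 v hv).1, fun _ => (d1 u hu).1⟩,
        ⟨fun k => absurd k (d1 u hu).2, fun k => absurd k (d1 v hv).2⟩⟩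
  rcases hP _ key with k | k
  · have h4 : a = b := k (by simp) (by simp)
    subst h4
    exact h.irr _ h1
  · have h4 : a + b + c + 1 ∈ ({a, b, c} : Set ℕ) := by
      rw [k]
      trivial
    simp only [Set.mem_insert_iff, Set.mem_singleton_iff] at h4
    omega

end Pool.Agent.K1H62.LT
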