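import Pool.Agent.K1H62.PG.Code2

set_option autoImplicit false

/-! Codings by binary relations and one unary predicate that depend on the parameters. -/

namespace Pool.Agent.K1H62.LT

open Set MeasureTheory
open Pool.Agent.H533R2.VO (RS)
open Pool.Agent.H533R2.VS (VCu US UIso UDich)
open Pool.Agent.W878.VC

/-- one more unary predicate -/
def cs (u : ℕ → Bool) (c : ℕ → ℕ → Bool) : ℕ → ℕ → Bool := fun i => if i = 0 then u else c (i - 1)

theorem cs_inj {u w : ℕ → Bool} {c d : ℕ → ℕ → Bool} (h : cs u c = cs w d) : u = w ∧ c = d := by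
  constructor
  · have h1 := congrFun h 0
    simpa [cs] using h1
  · funext i
    have h1 := congrFun h (i + 1)
    simpa [cs] using h1

theorem cs_cont : Continuous fun q : (ℕ → Bool) × (ℕ → ℕ → Bool) => cs q.1 q.2 := by
  refine continuous_pi fun i => ?_
  by_cases h : i = 0
  · simp only [cs, h, if_true]
    exact continuous_fst
  · simp only [cs, h, if_false]
    exact (continuous_apply _).comp continuous_snd

theorem code3 {a : ℕ → ℕ} {m k : ℕ} {W : RS a → Prop} {V : (Fin m → ℕ → ℕ → Bool) → Prop}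
    (hV : VS V) (R : RS a × (Fin k → ℕ) → (Fin m → ℕ → ℕ → Bool)) (hR : Measurable R)
    (hRe : ∀ (σ : Equiv.Perm ℕ) x p, R (aR σ x, ⇑σ ∘ p) = aF σ (R (x, p)))
    (U : RS a × (Fin k → ℕ) → ℕ → Bool) (hU : Measurable U)
    (hUe : ∀ (σ : Equiv.Perm ℕ) x p u, U (aR σ x, ⇑σ ∘ p) u = U (x, p) (σ⁻¹ u))
    (P : RS a → (Fin k → ℕ) → Prop)
    (hPm : MeasurableSet {q : RS a × (Fin k → ℕ) | P q.1 q.2})
    (hPi : ∀ x p (σ : Equiv.Perm ℕ), P x p → P (aR σ x) (⇑σ ∘ p)) (hex : ∀ x, W x → ∃ p, P x p)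
    (hinj : ∀ x y p, W x → W y → P x p → P y p → R (x, p) = R (y, p) → U (x, p) = U (y, p) →
      x = y)
    (hWV : ∀ x p, W x → P x p → V (R (x, p))) : VCu W := by
  intro B hB hBi hBW
  have hBa : ∀ x ∈ B, ∀ σ, aU σ x ∈ B := fun x hx σ =>
    (hBi x _ ((uiso_iff _ _).2 ⟨σ, rfl⟩)).1 hx
  let D : Set (US a × (Fin k → ℕ)) := {q | q.1 ∈ B ∧ P q.1.1 q.2}
  let c : US a × (Fin k → ℕ) → SS m := fun q =>
    (R (q.1.1, q.2), mk q.2 (cs (U (q.1.1, q.2)) q.1.2))
  have h0 : Measurable fun q : US a × (Fin k → ℕ) => (q.1.1, q.2) :=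
    (measurable_fst.comp measurable_fst).prodMk measurable_snd
  have hD : MeasurableSet D := by
    refine MeasurableSet.inter (measurable_fst hB) ?_
    exact h0 hPm
  have hcm : Measurable c := by
    refine Measurable.prodMk (hR.comp h0) ?_
    have h1 : Measurable fun q : US a × (Fin k → ℕ) =>
        ((U (q.1.1, q.2), q.1.2) : (ℕ → Bool) × (ℕ → ℕ → Bool)) :=
      (hU.comp h0).prodMk (measurable_snd.comp measurable_fst)
    have h2 : Measurable fun q : US a × (Fin k → ℕ) => cs (U (q.1.1, q.2)) q.1.2 :=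
      cs_cont.measurable.comp h1
    have h3 : Measurable fun q : (ℕ → ℕ → Bool) × (Fin k → ℕ) => mk q.2 q.1 :=
      mk_cont.measurable
    exact h3.comp (h2.prodMk measurable_snd)
  have hce : ∀ (σ : Equiv.Perm ℕ) x p, c (aU σ x, ⇑σ ∘ p) = aS σ (c (x, p)) := by
    intro σ x p
    refine Prod.ext (hRe σ x.1 p) ?_
    have h1 : cs (U (aR σ x.1, ⇑σ ∘ p)) (aU σ x).2 =
        fun i u => cs (U (x.1, p)) x.2 i (σ⁻¹ u) := by
      funext i u
      by_cases h : i = 0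
      · simp only [cs, h, if_true]
        exact hUe σ x.1 p u
      · simp only [cs, h, if_false]
        rfl
    show mk (⇑σ ∘ p) (cs (U (aR σ x.1, ⇑σ ∘ p)) (aU σ x).2) = _
    rw [h1]
    exact mk_act σ p _
  have hi : InjOn c D := by
    rintro ⟨x, p⟩ ⟨hx1, hx2⟩ ⟨y, q⟩ ⟨hy1, hy2⟩ h
    obtain ⟨h1, h2⟩ := mk_inj (congrArg Prod.snd h)
    have h3 : R (x.1, p) = R (y.1, q) := congrArg Prod.fst h
    simp only at h1 hx2 hy2
    subst h1
    obtain ⟨h5, h6⟩ := cs_inj h2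
    have h4 := hinj x.1 y.1 p (hBW x hx1) (hBW y hy1) hx2 hy2 h3 h5
    have h5 : x = y := Prod.ext h4 h6
    rw [h5]
  have hDi : ∀ x p, (x, p) ∈ D → ∀ σ : Equiv.Perm ℕ, (aU σ x, ⇑σ ∘ p) ∈ D := by
    rintro x p ⟨h1, h2⟩ σ
    exact ⟨hBa x h1 σ, hPi x.1 p σ h2⟩
  have hP0 : PolishSpace (US a × (Fin k → ℕ)) := inferInstance
  have key := par (Y := US a) (Z := SS m) k (act_S m) (ana_U a) D hD hDi c hcm hce hi ?_
  · have e : {x | ∃ p : Fin k → ℕ, (x, p) ∈ D} = B := by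
      ext x
      constructor
      · rintro ⟨p, h1, -⟩
        exact h1
      · intro hx
        obtain ⟨p, hp⟩ := hex x.1 (hBW x hx)
        exact ⟨p, hx, hp⟩
    rw [e] at key
    exact (dicho_U B).1 key
  · have hst : StandardBorelSpace (SS m) := inferInstance
    have hcs : MeasurableSpace.CountablySeparated (SS m) := cs_of (SS m)
    refine hV _ (hD.image_of_measurable_injOn hcm hi) ?_ ?_
    · rintro _ ⟨⟨x, p⟩, hx, rfl⟩ σ
      exact ⟨(aU σ x, ⇑σ ∘ p), hDi x p hx σ, hce σ x p⟩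
    · rintro _ ⟨⟨x, p⟩, ⟨hx, hp⟩, rfl⟩
      exact hWV x.1 p (hBW x hx) hp

end Pool.Agent.K1H62.LT
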