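import Pool.Agent.K1H62.LT.Cmb
import Pool.Agent.H24R3.PolyNorm

set_option autoImplicit false

/-! Tournaments with four points. -/

namespace Pool.Agent.K1H62.LT

open Pool.Agent.W878.VC (Mdl Prm SPO SLO)

variable {A : ℕ → ℕ → Prop}

/-- tournaments on four points -/
structure T4 (H : Fin 4 → Fin 4 → Prop) : Prop where
  asymm : ∀ i j, H i j → ¬ H j i
  total : ∀ i j, i ≠ j → H i j ∨ H j i

/-- `A` contains `H` -/
def Cn (H : Fin 4 → Fin 4 → Prop) (A : ℕ → ℕ → Prop) : Prop :=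
  ∃ f : Fin 4 → ℕ, Function.Injective f ∧ ∀ i j, H i j ↔ A (f i) (f j)

/-- the standard tournaments -/
def St (t : Fin 4) : Fin 4 → Fin 4 → Bool := match t with
  | 0 => fun i j => decide ((i, j) ∈ ([(0, 1), (1, 2), (2, 0), (0, 3), (1, 3), (2, 3)] : List (Fin 4 × Fin 4)))
  | 1 => fun i j => decide ((i, j) ∈ ([(0, 1), (1, 2), (2, 0), (3, 0), (3, 1), (3, 2)] : List (Fin 4 × Fin 4)))
  | 2 => fun i j => decide ((i, j) ∈ ([(0, 1), (1, 2), (2, 0), (3, 0), (1, 3), (2, 3)] : List (Fin 4 × Fin 4)))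
  | 3 => fun i j => decide ((i, j) ∈ ([(0, 1), (0, 2), (0, 3), (1, 2), (1, 3), (2, 3)] : List (Fin 4 × Fin 4)))

/-- the tournament with six given arcs -/
def tb (b : Fin 6 → Bool) (i j : Fin 4) : Bool :=
  match i, j with
  | 0, 1 => b 0
  | 1, 0 => !b 0
  | 0, 2 => b 1
  | 2, 0 => !b 1
  | 0, 3 => b 2
  | 3, 0 => !b 2
  | 1, 2 => b 3
  | 2, 1 => !b 3
  | 1, 3 => b 4
  | 3, 1 => !b 4
  | 2, 3 => b 5
  | 3, 2 => !b 5
  | _, _ => false

set_option maxRecDepth 100000 in
theorem key4 : ∀ b : Fin 6 → Bool, ∃ (t : Fin 4) (g : Fin 4 → Fin 4),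
    ∀ i j, tb b i j = St t (g i) (g j) := by
  decide +kernel

theorem key4' (H : Fin 4 → Fin 4 → Prop) (hH : T4 H) : ∃ (t : Fin 4) (g : Fin 4 → Fin 4),
    ∀ i j, H i j ↔ St t (g i) (g j) = true := by
  classical
  obtain ⟨t, g, h⟩ := key4 ![decide (H 0 1), decide (H 0 2), decide (H 0 3), decide (H 1 2),
    decide (H 1 3), decide (H 2 3)]
  refine ⟨t, g, fun i j => ?_⟩
  rw [← h i j]
  have irr : ∀ i, ¬ H i i := fun i k => hH.asymm i i k k
  have sw : ∀ i j, i ≠ j → (H j i ↔ ¬ H i j) := by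
    intro i j hij
    constructor
    · exact hH.asymm j i
    · intro k
      rcases hH.total i j hij with k1 | k1
      · exact absurd k1 k
      · exact k1
  fin_cases i <;> fin_cases j <;> simp [tb, irr]
  · exact sw 0 1 (by decide)
  · exact sw 0 2 (by decide)
  · exact sw 1 2 (by decide)
  · exact sw 0 3 (by decide)
  · exact sw 1 3 (by decide)
  · exact sw 2 3 (by decide)

/-- from embeddings of the standard tournaments -/
theorem cn_of (h : Tour A) (hS : ∀ t, ∃ f : Fin 4 → ℕ, ∀ i j, St t i j = true ↔ A (f i) (f j))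
    {H : Fin 4 → Fin 4 → Prop} (hH : T4 H) : Cn H A := by
  obtain ⟨t, g, k⟩ := key4' H hH
  obtain ⟨f, hf⟩ := hS t
  have k1 : ∀ i j, H i j ↔ A (f (g i)) (f (g j)) := fun i j => (k i j).trans (hf _ _)
  refine ⟨fun i => f (g i), fun i j hij => ?_, k1⟩
  by_contra hne
  have hij' : f (g i) = f (g j) := hij
  rcases hH.total i j hne with k2 | k2
  · have k3 := (k1 i j).1 k2
    rw [hij'] at k3
    exact h.irr _ k3
  · have k3 := (k1 j i).1 k2
    rw [hij'] at k3
    exact h.irr _ k3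

theorem emb_of (h : Tour A) {t : Fin 4} {f : Fin 4 → ℕ}
    (hf : ∀ i j, St t i j = true → A (f i) (f j)) :
    ∀ i j, St t i j = true ↔ A (f i) (f j) := by
  have tot : ∀ t i j, i ≠ j → St t i j = true ∨ St t j i = true := by decide
  intro i j
  refine ⟨hf i j, fun k => ?_⟩
  by_contra hno
  by_cases hij : i = j
  · subst hij
    exact h.irr _ k
  · rcases tot t i j hij with k1 | k1
    · exact hno k1
    · exact h.asymm _ _ k (hf _ _ k1)

theorem emb0 (h : Tour A) (hW : ¬ WF A) :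
    ∃ f : Fin 4 → ℕ, ∀ i j, St 0 i j = true ↔ A (f i) (f j) := by
  unfold WF at hW
  push Not at hW
  obtain ⟨a, b, c, d, h1, h2, h3, h4, h5, h6, -⟩ := hW
  refine ⟨![a, b, c, d], emb_of h ?_⟩
  intro i j
  fin_cases i <;> fin_cases j <;> simp [St] <;> assumption

theorem emb1 (h : Tour A) (hL : ¬ LF A) :
    ∃ f : Fin 4 → ℕ, ∀ i j, St 1 i j = true ↔ A (f i) (f j) := by
  unfold LF at hL
  push Not at hL
  obtain ⟨a, b, c, d, h1, h2, h3, h4, h5, h6, -⟩ := hL
  refine ⟨![a, b, c, d], emb_of h ?_⟩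
  intro i j
  fin_cases i <;> fin_cases j <;> simp [St] <;> assumption

theorem emb2 (h : Tour A) (hm : ∃ a b c u, A a b ∧ A b c ∧ A c a ∧ A u a ∧ A b u ∧ A c u) :
    ∃ f : Fin 4 → ℕ, ∀ i j, St 2 i j = true ↔ A (f i) (f j) := by
  obtain ⟨a, b, c, d, h1, h2, h3, h4, h5, h6⟩ := hm
  refine ⟨![a, b, c, d], emb_of h ?_⟩
  intro i j
  fin_cases i <;> fin_cases j <;> simp [St] <;> assumption

theorem emb3 (h : Tour A) :
    ∃ f : Fin 4 → ℕ, ∀ i j, St 3 i j = true ↔ A (f i) (f j) := by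
  classical
  obtain ⟨φ, hφ, k, hk⟩ := Pool.Agent.H24R3.PolyNorm.ramsey
    (fun i j => (if A i j then 0 else 1 : Fin 2))
  by_cases k0 : k = 0
  · have k1 : ∀ i j, i < j → A (φ i) (φ j) := by
      intro i j hij
      have k2 := hk i j hij
      by_contra k3
      rw [if_neg k3, k0] at k2
      exact absurd k2 (by decide)
    refine ⟨![φ 0, φ 1, φ 2, φ 3], emb_of h ?_⟩
    intro i j
    fin_cases i <;> fin_cases j <;> simp [St] <;> exact k1 _ _ (by decide)
  · have k1 : ∀ i j, i < j → A (φ j) (φ i) := by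
      intro i j hij
      have k2 := hk i j hij
      by_contra k3
      rcases h.tri _ _ k3 with k4 | k4
      · have := hφ.injective k4
        omega
      · rw [if_pos k4] at k2
        exact k0 k2.symm
    refine ⟨![φ 3, φ 2, φ 1, φ 0], emb_of h ?_⟩
    intro i j
    fin_cases i <;> fin_cases j <;> simp [St] <;> exact k1 _ _ (by decide)

/-- infinite prime tournaments that omit a tournament with four points -/
theorem local_of (h : Tour A) (hP : Prm A) {H : Fin 4 → Fin 4 → Prop} (hH : T4 H)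
    (hn : ¬ Cn H A) : WF A ∧ LF A := by
  by_cases hW : WF A
  · exact ⟨hW, lf_of_wf h hP hW⟩
  by_cases hL : LF A
  · exact ⟨wf_of_lf h hP hL, hL⟩
  exfalso
  refine hn (cn_of h (fun t => ?_) hH)
  have hm : ∃ a b c u, A a b ∧ A b c ∧ A c a ∧ A u a ∧ A b u ∧ A c u := by
    have hW' := hW
    unfold WF at hW'
    push Not at hW'
    obtain ⟨a, b, c, d, h1, h2, h3, h4, h5, h6⟩ := hW'
    exact mixed h hP h1 h2 h3
  fin_cases t
  · exact emb0 h hW
  · exact emb1 h hL
  · exact emb2 h hm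
  · exact emb3 h

end Pool.Agent.K1H62.LT
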