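import Pool.Agent.K1H62.LT.Code3
import Pool.Agent.K1H62.LT.Cmb
import Pool.Agent.K1H62.PG.Sev
import Pool.Agent.R617.VT.Cmp

set_option autoImplicit false

/-! The class of local orders; general tournaments. -/

namespace Pool.Agent.K1H62.LT

open Set MeasureTheory
open Pool.Agent.H533R2.VO (RS)
open Pool.Agent.H533R2.VS (VCu US UIso UDich)
open Pool.Agent.W878.VC
open Pool.Agent.R617.VT.Cmp (Bl rs_one rs_ge)
open Pool.Agent.K1H62.PG (V2 vs_V2)

/-- local orders as structures -/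
structure W (x : RS a2) : Prop where
  only : ∀ i, i ≠ 0 → ∀ u v, ¬ rl x i u v
  tour : Tour (rl x 0)
  wf : WF (rl x 0)
  lf : LF (rl x 0)

open Classical in
/-- the order, twice -/
noncomputable def RR (q : RS a2 × (Fin 1 → ℕ)) : Fin 2 → ℕ → ℕ → Bool := fun _ u w =>
  decide (lo (rl q.1 0) (q.2 0) u w)

open Classical in
/-- the predicate -/
noncomputable def UU (q : RS a2 × (Fin 1 → ℕ)) : ℕ → Bool := fun u =>
  decide (rl q.1 0 u (q.2 0))

theorem RR_iff (q : RS a2 × (Fin 1 → ℕ)) (i : Fin 2) (u v : ℕ) :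
    RR q i u v = true ↔ lo (rl q.1 0) (q.2 0) u v := by
  classical
  unfold RR
  rw [decide_eq_true_iff]

theorem UU_iff (q : RS a2 × (Fin 1 → ℕ)) (u : ℕ) :
    UU q u = true ↔ rl q.1 0 u (q.2 0) := by
  classical
  unfold UU
  rw [decide_eq_true_iff]

theorem m1 (u w : ℕ) : Measurable fun q : RS a2 × (Fin 1 → ℕ) => rl q.1 0 u w := by
  have h1 : Measurable fun q : RS a2 × (Fin 1 → ℕ) => q.1 0 ![u, w] := by
    have h2 : Continuous fun q : RS a2 × (Fin 1 → ℕ) => q.1 0 ![u, w] :=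
      (continuous_apply _).comp ((continuous_apply 0).comp continuous_fst)
    exact h2.measurable
  exact measurableSet_setOfPred.1 (h1 (measurableSet_singleton true))

theorem m2 (u : ℕ) : Measurable fun q : RS a2 × (Fin 1 → ℕ) => rl q.1 0 u (q.2 0) := by
  have h1 : (fun q : RS a2 × (Fin 1 → ℕ) => rl q.1 0 u (q.2 0)) =
      fun q : RS a2 × (Fin 1 → ℕ) => ∃ v, q.2 0 = v ∧ rl q.1 0 u v := by
    funext q
    simp
  rw [h1]
  refine Measurable.exists fun v => Measurable.and ?_ (m1 u v)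
  have h2 : Measurable fun q : RS a2 × (Fin 1 → ℕ) => q.2 0 :=
    (measurable_pi_apply 0).comp measurable_snd
  exact measurableSet_setOfPred.1 (h2 (measurableSet_singleton v))

theorem m3 (u w : ℕ) : Measurable fun q : RS a2 × (Fin 1 → ℕ) => lo (rl q.1 0) (q.2 0) u w :=
  ((m1 u w).and ((m2 u).iff (m2 w))).or ((m1 w u).and ((m2 u).iff (m2 w)).not)

theorem bool_meas {X : Type} [MeasurableSpace X] {Q : X → Prop} (hQ : Measurable Q)
    {F : X → Bool} (hF : ∀ q, F q = true ↔ Q q) : Measurable F := by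
  refine measurable_to_bool ?_
  have e : F ⁻¹' {true} = {q | Q q} := by
    ext q
    exact hF q
  rw [e]
  exact measurableSet_setOfPred.2 hQ

theorem RR_meas : Measurable RR :=
  measurable_pi_iff.2 fun i => measurable_pi_iff.2 fun u => measurable_pi_iff.2 fun v =>
    bool_meas (m3 u v) fun q => RR_iff q i u v

theorem UU_meas : Measurable UU :=
  measurable_pi_iff.2 fun u => bool_meas (m2 u) fun q => UU_iff q u

theorem rl_act' (σ : Equiv.Perm ℕ) (x : RS a2) (u v : ℕ) :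
    rl (aR σ x) 0 u v ↔ rl x 0 (σ⁻¹ u) (σ⁻¹ v) := by
  have e1 : ∀ u, σ (σ⁻¹ u) = u := fun u => σ.apply_symm_apply u
  have h := rl_act σ x 0 (σ⁻¹ u) (σ⁻¹ v)
  rw [e1, e1] at h
  exact h

theorem inv_app (σ : Equiv.Perm ℕ) (u : ℕ) : σ⁻¹ (σ u) = u := σ.symm_apply_apply u

theorem RR_act (σ : Equiv.Perm ℕ) (x : RS a2) (p : Fin 1 → ℕ) :
    RR (aR σ x, ⇑σ ∘ p) = aF σ (RR (x, p)) := by
  funext i u v
  rw [Bool.eq_iff_iff]
  show _ ↔ RR (x, p) i (σ⁻¹ u) (σ⁻¹ v) = true
  rw [RR_iff, RR_iff]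
  show lo (rl (aR σ x) 0) (σ (p 0)) u v ↔ lo (rl x 0) (p 0) (σ⁻¹ u) (σ⁻¹ v)
  unfold lo
  rw [rl_act', rl_act', rl_act', rl_act', inv_app]

theorem UU_act (σ : Equiv.Perm ℕ) (x : RS a2) (p : Fin 1 → ℕ) (u : ℕ) :
    UU (aR σ x, ⇑σ ∘ p) u = UU (x, p) (σ⁻¹ u) := by
  rw [Bool.eq_iff_iff, UU_iff, UU_iff]
  show rl (aR σ x) 0 u (σ (p 0)) ↔ rl x 0 (σ⁻¹ u) (p 0)
  rw [rl_act', inv_app]

theorem slo_congr {l k : ℕ → ℕ → Prop} (h : ∀ u v, l u v ↔ k u v) (hl : SLO k) : SLO l := by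
  have e : l = k := by
    funext u v
    exact propext (h u v)
  rw [e]
  exact hl

theorem vcu_W : VCu W := by
  refine code3 (k := 1) vs_V2 RR RR_meas RR_act UU UU_meas UU_act (fun _ _ => True)
    MeasurableSet.univ (fun _ _ _ h => h) (fun _ _ => ⟨fun _ => 0, trivial⟩) ?_ ?_
  · intro x y p hx hy _ _ h1 h2
    have e1 : ∀ u v, lo (rl x 0) (p 0) u v ↔ lo (rl y 0) (p 0) u v := by
      intro u v
      rw [← RR_iff (x, p) 0, ← RR_iff (y, p) 0, h1]
    have e2 : ∀ u, rl x 0 u (p 0) ↔ rl y 0 u (p 0) := by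
      intro u
      rw [← UU_iff (x, p), ← UU_iff (y, p), h2]
    refine rl_ext fun i u v => ?_
    by_cases hi : i = 0
    · subst hi
      rw [lo_iff hx.tour (p 0) u v, lo_iff hy.tour (p 0) u v, e1, e1, e2, e2]
    · exact ⟨fun h => absurd h (hx.only i hi u v), fun h => absurd h (hy.only i hi u v)⟩
  · intro x p hx _
    have k := lo_slo hx.tour hx.wf hx.lf (p 0)
    refine ⟨slo_congr (RR_iff (x, p) 0) k, slo_congr (RR_iff (x, p) 1) k, 2, Or.inr ?_⟩
    rintro ⟨a, ha⟩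
    obtain ⟨l1, l2⟩ := ha 0 1 (by decide)
    exact k.asymm ((RR_iff (x, p) 0 _ _).1 l1) ((RR_iff (x, p) 1 _ _).1 l2)

/-- tournaments all of whose infinite prime subtournaments are local orders -/
structure TG (A : ℕ → ℕ → Prop) : Prop where
  tour : Tour A
  prm : ∀ e : ℕ → ℕ, Function.Injective e → Prm (fun u v => A (e u) (e v)) →
    WF (fun u v => A (e u) (e v)) ∧ LF (fun u v => A (e u) (e v))

theorem Tour.comap {A : ℕ → ℕ → Prop} (h : Tour A) {e : ℕ → ℕ} (he : Function.Injective e) :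
    Tour (fun u v => A (e u) (e v)) :=
  ⟨fun u v => h.asymm _ _, fun _ _ k => h.total _ _ (he.ne k)⟩

theorem vs_TG : VS (Bl TG) := by
  refine vs_prime vcu_W ?_ ?_
  · rintro x h i u hu
    rcases Nat.eq_zero_or_pos i with rfl | hi
    · exact h.tour.irr u ((rs_one _ _ _).1 hu)
    · exact rs_ge x.1 hi _ _ hu
  · intro x h e he hp y hy
    have hy0 : rl y 0 = fun u v => x.1 0 (e u) (e v) = true := by
      funext u v
      exact propext ((hy 0 u v).trans (rs_one _ _ _))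
    have hP : Prm (fun u v => x.1 0 (e u) (e v) = true) := by
      intro X hX
      refine hp X fun i => ?_
      rcases Nat.eq_zero_or_pos i with rfl | hi
      · have e1 : (fun u v => rs x.1 0 (e u) (e v)) = fun u v => x.1 0 (e u) (e v) = true := by
          funext u v
          exact propext (rs_one _ _ _)
        rw [e1]
        exact hX
      · exact Pool.Agent.R617.VT.Cmp.mdl_triv (fun u v => rs_ge x.1 hi _ _) X
    refine ⟨fun i hi u v => ?_, ?_, ?_, ?_⟩
    · rw [hy]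
      exact rs_ge x.1 (Nat.pos_of_ne_zero hi) _ _
    · rw [hy0]
      exact h.tour.comap he
    · rw [hy0]
      exact (h.prm e he hP).1
    · rw [hy0]
      exact (h.prm e he hP).2

end Pool.Agent.K1H62.LT
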